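import Pool.Agent.H47.LC.Large
import Pool.Agent.H47.SP.Fibre
import Pool.Agent.N491.HP.Jan

set_option autoImplicit false

/-!
# The filled Julia set of a quadratic polynomial; locally connected Julia sets
-/

open Set Topology Metric Filter N62a1eb23

namespace Pool.Agent.H47.LC

open Pool.Agent.H47.SP

/-- the filled Julia set: the points with a bounded orbit -/
def Fill (c : ℂ) : Set ℂ := {z | Bornology.IsBounded (range fun n : ℕ => (fun z : ℂ => z ^ 2 + c)^[n] z)}

theorem freq_of_bounded {c z : ℂ} (h : z ∈ Fill c) (i : ℕ) : ∃ R : ℝ,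
    ∃ᶠ n : ℕ in atTop, ‖(fun z : ℂ => z ^ 2 + c)^[n] ((fun z : ℂ => z ^ 2 + c)^[i] z)‖ ≤ R := by
  have h' : Bornology.IsBounded (range fun n : ℕ => (fun z : ℂ => z ^ 2 + c)^[n] z) := h
  obtain ⟨R, hR⟩ := h'.exists_norm_le
  refine ⟨R, Eventually.frequently (Eventually.of_forall fun n => ?_)⟩
  rw [← Function.iterate_add_apply]
  exact hR _ (mem_range_self (n + i))

theorem fill_eq {c : ℂ} (hc : ‖c‖ ≤ 2) :
    Fill c = {z | ∀ n : ℕ, ‖(fun z : ℂ => z ^ 2 + c)^[n] z‖ ≤ 2} := by
  ext z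
  constructor
  · intro h n
    obtain ⟨R, hR⟩ := freq_of_bounded h n
    exact norm_le_two hc hR
  · intro h
    show Bornology.IsBounded (range fun n : ℕ => (fun z : ℂ => z ^ 2 + c)^[n] z)
    apply isBounded_iff_forall_norm_le.2
    exact ⟨2, by rintro _ ⟨n, rfl⟩; exact h n⟩

theorem isClosed_fill {c : ℂ} (hc : ‖c‖ ≤ 2) : IsClosed (Fill c) := by
  rw [fill_eq hc]
  have : {z : ℂ | ∀ n : ℕ, ‖(fun z : ℂ => z ^ 2 + c)^[n] z‖ ≤ 2} =
      ⋂ n : ℕ, {z | ‖(fun z : ℂ => z ^ 2 + c)^[n] z‖ ≤ 2} := by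
    ext z
    simp
  rw [this]
  exact isClosed_iInter fun n => isClosed_le ((continuous_f c).iterate n).norm continuous_const

theorem fill_subset {c : ℂ} (hc : ‖c‖ ≤ 2) : Fill c ⊆ closedBall 0 2 := by
  rw [fill_eq hc]
  intro z hz
  simpa using hz 0

theorem isCompact_fill {c : ℂ} (hc : ‖c‖ ≤ 2) : IsCompact (Fill c) :=
  (isCompact_closedBall (0 : ℂ) 2).of_isClosed_subset (isClosed_fill hc) (fill_subset hc)

theorem exterior_preconnected : IsPreconnected {z : ℂ | 2 < ‖z‖} := by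
  have h1 : {z : ℂ | 2 < ‖z‖} = (fun q : ℝ × ℝ => (q.1 : ℂ) * Complex.exp (q.2 * Complex.I)) ''
      (Ioi 2 ×ˢ univ) := by
    ext z
    constructor
    · intro hz
      refine ⟨(‖z‖, z.arg), ⟨hz, mem_univ _⟩, ?_⟩
      exact Complex.norm_mul_exp_arg_mul_I z
    · rintro ⟨⟨s, t⟩, ⟨hs, -⟩, rfl⟩
      have hs' : (2 : ℝ) < s := hs
      show 2 < ‖(s : ℂ) * Complex.exp (t * Complex.I)‖
      rw [norm_mul, Complex.norm_exp_ofReal_mul_I, mul_one, Complex.norm_real, Real.norm_eq_abs]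
      exact lt_of_lt_of_le hs' (le_abs_self s)
  rw [h1]
  apply IsPreconnected.image
  · exact isPreconnected_Ioi.prod isPreconnected_univ
  · fun_prop

/-- the complement of the filled Julia set is connected -/
theorem compl_fill_connected {c : ℂ} (hc : ‖c‖ ≤ 2) : IsConnected (Fill c)ᶜ := by
  have hS : {z : ℂ | 2 < ‖z‖} ⊆ (Fill c)ᶜ := by
    intro z hz h1
    have h2 := fill_subset hc h1
    rw [mem_closedBall, dist_zero_right] at h2
    have hz' : 2 < ‖z‖ := hz
    linarith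
  have h3 : (3 : ℂ) ∈ {z : ℂ | 2 < ‖z‖} := by
    show 2 < ‖(3 : ℂ)‖
    norm_num
  refine ⟨⟨3, hS h3⟩, ?_⟩
  refine isPreconnected_of_forall 3 ?_
  intro z hz
  obtain ⟨W, hW⟩ : ∃ W, W = connectedComponentIn (Fill c)ᶜ z := ⟨_, rfl⟩
  have hWo : IsOpen W := by rw [hW]; exact (isClosed_fill hc).isOpen_compl.connectedComponentIn
  have hWc : IsPreconnected W := by rw [hW]; exact isPreconnected_connectedComponentIn
  have hzW : z ∈ W := by rw [hW]; exact mem_connectedComponentIn hz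
  have hWsub : W ⊆ (Fill c)ᶜ := by rw [hW]; exact connectedComponentIn_subset _ _
  by_cases hmeet : (W ∩ {z : ℂ | 2 < ‖z‖}).Nonempty
  · obtain ⟨w, hw1, hw2⟩ := hmeet
    exact ⟨W ∪ {z : ℂ | 2 < ‖z‖}, union_subset hWsub hS, Or.inr h3, Or.inl hzW,
      hWc.union w hw1 hw2 exterior_preconnected⟩
  · exfalso
    have hWb : W ⊆ closedBall 0 2 := by
      intro w hw
      rw [mem_closedBall, dist_zero_right]
      by_contra h4
      push Not at h4
      exact hmeet ⟨w, hw, h4⟩
    have hbd : Bornology.IsBounded W := isBounded_closedBall.subset hWb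
    have hfr : frontier W ⊆ Fill c := by
      have := Pool.Agent.N491.HP.frontier_comp (isClosed_fill hc).isOpen_compl (b := z)
      rw [compl_compl, ← hW] at this
      exact this
    apply hz
    rw [fill_eq hc]
    intro n
    have hd : Differentiable ℂ ((fun z : ℂ => z ^ 2 + c)^[n]) := by
      induction n with
      | zero => exact differentiable_id
      | succ n ih =>
        rw [Function.iterate_succ]
        exact ih.comp (by fun_prop)
    refine Complex.norm_le_of_forall_mem_frontier_norm_le hbd hd.diffContOnCl ?_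
      (subset_closure hzW)
    intro w hw
    have h4 := hfr hw
    rw [fill_eq hc] at h4
    exact h4 n

/-- the pieces are in the filled Julia set -/
theorem piece_subset {c : ℂ} {p : ℕ} {K : Set ℂ} (hp : 1 ≤ p) (hK : IsCompact K)
    (hm : MapsTo ((fun z : ℂ => z ^ 2 + c)^[p]) K K) (i : ℕ) :
    (fun z : ℂ => z ^ 2 + c)^[i] '' K ⊆ Fill c := by
  rintro _ ⟨z, hz, rfl⟩
  obtain ⟨B, hB⟩ : ∃ B : Set ℂ, B = ⋃ j ∈ Finset.range p, (fun z : ℂ => z ^ 2 + c)^[j] '' K := ⟨_, rfl⟩
  have hBc : IsCompact B := by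
    rw [hB]
    exact (Finset.range p).isCompact_biUnion fun j _ => hK.image ((continuous_f c).iterate j)
  refine hBc.isBounded.subset ?_
  rintro _ ⟨n, rfl⟩
  show (fun z : ℂ => z ^ 2 + c)^[n] ((fun z : ℂ => z ^ 2 + c)^[i] z) ∈ B
  rw [← Function.iterate_add_apply, hB]
  refine mem_iUnion₂.2 ⟨(n + i) % p, Finset.mem_range.2 (Nat.mod_lt _ hp),
    (fun z : ℂ => z ^ 2 + c)^[p * ((n + i) / p)] z, maps_mul hm _ hz, ?_⟩
  rw [← Function.iterate_add_apply, Nat.mod_add_div]

/-- **Locally connected filled Julia sets without interior.** -/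
theorem sub_of_lc {c : ℂ} (hint : interior (Fill c) = ∅) (hLC : LocallyConnectedSpace (Fill c))
    (h : ∀ N : ℕ, ∃ (p : ℕ) (K : Set ℂ), N ≤ p ∧ IsCompact K ∧ IsPreconnected K ∧ (0 : ℂ) ∈ K ∧
      MapsTo ((fun z : ℂ => z ^ 2 + c)^[p]) K K ∧ ∀ i < p, ∀ j < p, i ≠ j →
        ((fun z : ℂ => z ^ 2 + c)^[i] '' K ∩ (fun z : ℂ => z ^ 2 + c)^[j] '' K).Subsingleton) :
    Sub c ∧ c ∈ multibrotSet 2 := by
  classical
  have hcM : c ∈ multibrotSet 2 := by
    obtain ⟨p, K, hp, hK, -, h0, hm, -⟩ := h 1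
    exact mem_of_bounded hp hK.isBounded h0 hm
  have hc2 : ‖c‖ ≤ 2 := by
    have := (Pool.Agent.H712R2.mem_multibrot_iff le_rfl c).1 hcM 1
    have e : Pool.Agent.H712R2.P 2 1 c = c := by
      rw [P_eq_iter]
      simp
    rw [e] at this
    norm_num at this ⊢
    exact this
  refine ⟨?_, hcM⟩
  apply sub_of_small hcM (η := 1 / 2) (by norm_num)
  intro r hr
  obtain ⟨N, hN⟩ := card_large (isCompact_fill hc2) (compl_fill_connected hc2) hint hLC hr
  obtain ⟨p, K, hp, hK, hKc, h0, hm, hd⟩ := h (2 * N + 1)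
  have hp1 : 1 ≤ p := by omega
  refine ⟨p, K, hp1, hKc, h0, hm, ?_⟩
  have hIc := hN ((Finset.range p).filter (fun i => ¬ SP.Small r ((fun z : ℂ => z ^ 2 + c)^[i] '' K)))
    (fun i => (fun z : ℂ => z ^ 2 + c)^[i] '' K) (by
      intro i hi
      exact ⟨hK.image ((continuous_f c).iterate i),
        hKc.image _ ((continuous_f c).iterate i).continuousOn, piece_subset hp1 hK hm i,
        (Finset.mem_filter.1 hi).2⟩) (by
      intro i hi j hj hij
      exact hd i (Finset.mem_range.1 (Finset.mem_filter.1 hi).1) j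
        (Finset.mem_range.1 (Finset.mem_filter.1 hj).1) hij)
  have hsum : cnt c r p K + ((Finset.range p).filter
      (fun i => ¬ SP.Small r ((fun z : ℂ => z ^ 2 + c)^[i] '' K))).card = p := by
    have h1 := Finset.card_filter_add_card_filter_not (s := Finset.range p)
      (fun i => SP.Small r ((fun z : ℂ => z ^ 2 + c)^[i] '' K))
    rw [Finset.card_range] at h1
    have h2 : cnt c r p K = ((Finset.range p).filter
        (fun i => SP.Small r ((fun z : ℂ => z ^ 2 + c)^[i] '' K))).card := by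
      unfold cnt
      congr 1
      apply Finset.filter_congr
      intro i _
      unfold SP.Small
      simp only [forall_mem_image]
    rw [h2]
    exact h1
  have h1 : p ≤ 2 * cnt c r p K := by omega
  have h2 : (p : ℝ) ≤ 2 * cnt c r p K := by exact_mod_cast h1
  linarith

end Pool.Agent.H47.LC
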