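import Pool.Agent.H47.LC.Uni
import Pool.Agent.H47.SP.Real

set_option autoImplicit false

/-!
# Large subcontinua of a locally connected plane continuum without interior
-/

open Set Topology Metric

namespace Pool.Agent.H47.LC

/-- uniform local connectivity -/
theorem uniform_lc {X : Set ℂ} (hX : IsCompact X) (hLC : LocallyConnectedSpace X) {ε : ℝ}
    (hε : 0 < ε) : ∃ δ > 0, ∀ x ∈ X, ∀ y ∈ X, dist x y < δ →
      ∃ A ⊆ X, IsCompact A ∧ IsPreconnected A ∧ x ∈ A ∧ y ∈ A ∧ A ⊆ closedBall x ε := by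
  have hcs : CompactSpace X := isCompact_iff_compactSpace.1 hX
  obtain ⟨δ, hδ, hL⟩ := lebesgue_number_lemma_of_metric (s := (univ : Set X)) (ι := X)
    (c := fun x => connectedComponentIn (ball x (ε / 2)) x) isCompact_univ
    (fun x => isOpen_ball.connectedComponentIn)
    (fun x _ => mem_iUnion.2 ⟨x, mem_connectedComponentIn (mem_ball_self (half_pos hε))⟩)
  refine ⟨δ, hδ, fun x hx y hy hxy => ?_⟩
  obtain ⟨i, hi⟩ := hL ⟨x, hx⟩ (mem_univ _)
  obtain ⟨V, hV⟩ : ∃ V : Set X, V = connectedComponentIn (ball i (ε / 2)) i := ⟨_, rfl⟩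
  have hi' : ball (⟨x, hx⟩ : X) δ ⊆ V := by rw [hV]; exact hi
  have hVb : V ⊆ ball i (ε / 2) := by rw [hV]; exact connectedComponentIn_subset _ _
  have hVc : IsPreconnected V := by rw [hV]; exact isPreconnected_connectedComponentIn
  have hsub : closure (Subtype.val '' V) ⊆ X := by
    apply closure_minimal _ hX.isClosed
    rintro _ ⟨v, _, rfl⟩
    exact v.2
  have hball : closure (Subtype.val '' V) ⊆ closedBall (i : ℂ) (ε / 2) := by
    apply closure_minimal _ isClosed_closedBall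
    rintro _ ⟨v, hv, rfl⟩
    have := hVb hv
    rw [mem_ball] at this
    rw [mem_closedBall]
    exact this.le
  have hxA : x ∈ closure (Subtype.val '' V) :=
    subset_closure ⟨⟨x, hx⟩, hi' (mem_ball_self hδ), rfl⟩
  refine ⟨closure (Subtype.val '' V), hsub, hX.of_isClosed_subset isClosed_closure hsub,
    (hVc.image _ continuous_subtype_val.continuousOn).closure, hxA,
    subset_closure ⟨⟨y, hy⟩, hi' ?_, rfl⟩, ?_⟩
  · rw [mem_ball, dist_comm]
    exact hxy
  · intro z hz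
    have h1 := hball hz
    have h2 := hball hxA
    rw [mem_closedBall] at h1 h2 ⊢
    have h3 := dist_triangle z (i : ℂ) x
    rw [dist_comm (i : ℂ) x] at h3
    linarith

/-- two large sets which are connected at both ends -/
theorem two_large {X C D A B : Set ℂ} (hX : IsCompact X) (hXc : IsConnected Xᶜ)
    (hint : interior X = ∅) {r : ℝ} (hr : 0 < r) {a a' b b' : ℂ}
    (hC : IsCompact C) (hC' : IsPreconnected C) (hCX : C ⊆ X)
    (hD : IsCompact D) (hD' : IsPreconnected D) (hDX : D ⊆ X)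
    (hA : IsCompact A) (hA' : IsPreconnected A) (hAX : A ⊆ X)
    (hB : IsCompact B) (hB' : IsPreconnected B) (hBX : B ⊆ X)
    (haC : a ∈ C) (hbC : b ∈ C) (haD : a' ∈ D) (hbD : b' ∈ D) (hab : r ≤ dist a b)
    (haA : a ∈ A) (haA' : a' ∈ A) (hAb : A ⊆ closedBall a (r / 4))
    (hbB : b ∈ B) (hbB' : b' ∈ B) (hBb : B ⊆ closedBall b (r / 4))
    (hsub : (C ∩ D).Subsingleton) : False := by
  have h1 : IsPreconnected ((C ∪ A) ∩ (D ∪ B)) :=
    unicoherent hX hXc hint (hC.union hA).isClosed (hD.union hB).isClosed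
      (union_subset hCX hAX) (union_subset hDX hBX) (hC'.union a haC haA hA')
      (hD'.union b' hbD hbB' hB')
  have h2 : a' ∈ (C ∪ A) ∩ (D ∪ B) := ⟨Or.inr haA', Or.inl haD⟩
  have h3 : b ∈ (C ∪ A) ∩ (D ∪ B) := ⟨Or.inl hbC, Or.inr hbB⟩
  have h4 := h1.intermediate_value h2 h3 (f := fun z => dist z a)
    (continuous_id.dist continuous_const).continuousOn
  have h5 : dist a' a ≤ r / 4 := hAb haA'
  have h6 : r ≤ dist b a := by rwa [dist_comm]
  have key : ∀ v : ℝ, r / 4 < v → v < 3 * r / 4 → ∃ z ∈ C ∩ D, dist z a = v := by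
    intro v hv1 hv2
    obtain ⟨z, ⟨hz1, hz2⟩, hz⟩ := h4 (show v ∈ Icc (dist a' a) (dist b a) from
      ⟨by linarith, by linarith⟩)
    have hz' : dist z a = v := hz
    refine ⟨z, ⟨?_, ?_⟩, hz'⟩
    · rcases hz1 with h | h
      · exact h
      · have := hAb h
        rw [mem_closedBall] at this
        linarith
    · rcases hz2 with h | h
      · exact h
      · have := hBb h
        rw [mem_closedBall] at this
        have h7 := dist_triangle b z a
        rw [dist_comm b z] at h7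
        linarith
  obtain ⟨z, hz, hz'⟩ := key (2 * r / 5) (by linarith) (by linarith)
  obtain ⟨w, hw, hw'⟩ := key (3 * r / 5) (by linarith) (by linarith)
  rw [hsub hz hw, hw'] at hz'
  linarith

/-- **Few large subcontinua.** -/
theorem card_large {X : Set ℂ} (hX : IsCompact X) (hXc : IsConnected Xᶜ)
    (hint : interior X = ∅) (hLC : LocallyConnectedSpace X) {r : ℝ} (hr : 0 < r) :
    ∃ N : ℕ, ∀ (I : Finset ℕ) (E : ℕ → Set ℂ),
      (∀ i ∈ I, IsCompact (E i) ∧ IsPreconnected (E i) ∧ E i ⊆ X ∧ ¬ Pool.Agent.H47.SP.Small r (E i)) →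
      (∀ i ∈ I, ∀ j ∈ I, i ≠ j → (E i ∩ E j).Subsingleton) → I.card ≤ N := by
  classical
  obtain ⟨δ, hδ, hul⟩ := uniform_lc hX hLC (show 0 < r / 4 by positivity)
  obtain ⟨t, -, htf, htc⟩ := hX.finite_cover_balls (half_pos hδ)
  obtain ⟨F, rfl⟩ := htf.exists_finset_coe
  refine ⟨(F ×ˢ F).card, fun I E hE hd => ?_⟩
  by_contra hcon
  push Not at hcon
  have hpts : ∀ i ∈ I, ∃ q : (ℂ × ℂ) × (ℂ × ℂ), q.1.1 ∈ E i ∧ q.1.2 ∈ E i ∧ r ≤ dist q.1.1 q.1.2 ∧
      q.2.1 ∈ F ∧ q.2.2 ∈ F ∧ dist q.1.1 q.2.1 < δ / 2 ∧ dist q.1.2 q.2.2 < δ / 2 := by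
    intro i hi
    obtain ⟨-, -, hEX, hL⟩ := hE i hi
    unfold Pool.Agent.H47.SP.Small at hL
    push Not at hL
    obtain ⟨z, hz, w, hw, hzw⟩ := hL
    obtain ⟨u, hu, hu'⟩ := mem_iUnion₂.1 (htc (hEX hz))
    obtain ⟨v, hv, hv'⟩ := mem_iUnion₂.1 (htc (hEX hw))
    exact ⟨((z, w), (u, v)), hz, hw, hzw, hu, hv, hu', hv'⟩
  choose! q hq using hpts
  obtain ⟨i, hi, j, hj, hij, he⟩ := Finset.exists_ne_map_eq_of_card_lt_of_maps_to hcon
    (f := fun i => (q i).2) (fun i hi => by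
      have h1 := hq i hi
      exact Finset.mem_coe.2 (Finset.mem_product.2 ⟨h1.2.2.2.1, h1.2.2.2.2.1⟩))
  obtain ⟨a1, a2, a3, a4, a5, a6, a7⟩ := hq i hi
  obtain ⟨b1, b2, b3, b4, b5, b6, b7⟩ := hq j hj
  have he' : (q i).2 = (q j).2 := he
  rw [← he'] at b6 b7
  obtain ⟨c1, c2, c3, -⟩ := hE i hi
  obtain ⟨d1, d2, d3, -⟩ := hE j hj
  have e1 : dist (q i).1.1 (q j).1.1 < δ := by
    have := dist_triangle_right (q i).1.1 (q j).1.1 (q i).2.1
    linarith
  have e2 : dist (q i).1.2 (q j).1.2 < δ := by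
    have := dist_triangle_right (q i).1.2 (q j).1.2 (q i).2.2
    linarith
  obtain ⟨A, hAX, hA1, hA2, hA3, hA4, hA5⟩ := hul _ (c3 a1) _ (d3 b1) e1
  obtain ⟨B, hBX, hB1, hB2, hB3, hB4, hB5⟩ := hul _ (c3 a2) _ (d3 b2) e2
  exact two_large hX hXc hint hr c1 c2 c3 d1 d2 d3 hA1 hA2 hAX hB1 hB2 hBX a1 a2 b1 b2 a3
    hA3 hA4 hA5 hB3 hB4 hB5 (hd i hi j hj hij)

end Pool.Agent.H47.LC
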