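import Mathlib
import Pool.Agent.H777R2.Top
import Pool.Agent.Helper240.ZFM.Q5b

set_option autoImplicit false

/-!
# Hereditary unicoherence of plane continua without interior which do not separate the plane
-/

open Complex Set Topology Metric

namespace Pool.Agent.H47.LC

/-- `φ` has a continuous logarithm on `X` -/
def HasLog (X : Set ℂ) (φ : ℂ → ℂ) : Prop := ∃ g : ℂ → ℂ, ContinuousOn g X ∧ ∀ z ∈ X, exp (g z) = φ z

theorem HasLog.mul {X : Set ℂ} {φ ψ : ℂ → ℂ} (h1 : HasLog X φ) (h2 : HasLog X ψ) :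
    HasLog X (fun z => φ z * ψ z) := by
  obtain ⟨g, hg, hg'⟩ := h1
  obtain ⟨k, hk, hk'⟩ := h2
  exact ⟨fun z => g z + k z, hg.add hk, fun z hz => by rw [exp_add, hg' z hz, hk' z hz]⟩

theorem hasLog_const {X : Set ℂ} {a : ℂ} (ha : a ≠ 0) : HasLog X (fun _ => a) :=
  ⟨fun _ => log a, continuousOn_const, fun _ _ => exp_log ha⟩

theorem HasLog.congr {X : Set ℂ} {φ ψ : ℂ → ℂ} (h1 : HasLog X φ) (h : ∀ z ∈ X, φ z = ψ z) :
    HasLog X ψ := by
  obtain ⟨g, hg, hg'⟩ := h1
  exact ⟨g, hg, fun z hz => by rw [hg' z hz, h z hz]⟩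

theorem hasLog_near_one {X : Set ℂ} {φ : ℂ → ℂ} (hφ : ContinuousOn φ X)
    (h : ∀ z ∈ X, ‖φ z‖ < 1) : HasLog X (fun z => 1 - φ z) := by
  have h1 : ∀ z ∈ X, 1 - φ z ∈ slitPlane := by
    intro z hz
    left
    have h2 := abs_re_le_norm (φ z)
    have h3 := h z hz
    rw [sub_re, one_re]
    have := le_abs_self (φ z).re
    linarith
  refine ⟨fun z => log (1 - φ z), (continuousOn_const.sub hφ).clog h1, fun z hz => ?_⟩
  exact exp_log (slitPlane_ne_zero (h1 z hz))

theorem hasLog_move {X : Set ℂ} {a b : ℂ} (ha : HasLog X (fun z => z - a))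
    (h : ∀ z ∈ X, ‖b - a‖ < ‖z - a‖) : HasLog X (fun z => z - b) := by
  have hne : ∀ z ∈ X, z - a ≠ 0 := fun z hz h0 => by
    have := h z hz
    rw [h0, norm_zero] at this
    exact absurd this (not_lt.2 (norm_nonneg _))
  have h1 : HasLog X (fun z => 1 - (b - a) / (z - a)) := by
    apply hasLog_near_one
    · exact continuousOn_const.div (continuousOn_id.sub continuousOn_const) hne
    · intro z hz
      rw [norm_div, div_lt_one (norm_pos_iff.2 (hne z hz))]
      exact h z hz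
  refine (ha.mul h1).congr fun z hz => ?_
  have := hne z hz
  field_simp
  ring

/-- `z - a` has a logarithm on a compact set with connected complement which does not contain `a`. -/
theorem hasLog_sub {X : Set ℂ} (hX : IsCompact X) (hXc : IsPreconnected Xᶜ) {a : ℂ} (ha : a ∉ X) :
    HasLog X (fun z => z - a) := by
  by_contra hcon
  have hXo : IsOpen Xᶜ := hX.isClosed.isOpen_compl
  have key : ∀ x ∈ Xᶜ, ∃ ε > 0, ball x ε ⊆ Xᶜ ∧ ∀ y ∈ ball x ε,
      (HasLog X (fun z => z - x) ↔ HasLog X (fun z => z - y)) := by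
    intro x hx
    obtain ⟨δ, hδ, hball⟩ := Metric.isOpen_iff.1 hXo x hx
    refine ⟨δ / 2, half_pos hδ, (ball_subset_ball (by linarith)).trans hball, ?_⟩
    intro y hy
    have hxz : ∀ z ∈ X, δ ≤ ‖z - x‖ := by
      intro z hz
      by_contra h1
      push Not at h1
      exact hball (show z ∈ ball x δ by rwa [mem_ball, dist_eq_norm]) hz
    have hyx : ‖y - x‖ < δ / 2 := by rwa [mem_ball, dist_eq_norm] at hy
    constructor
    · intro h1
      exact hasLog_move h1 fun z hz => by linarith [hxz z hz]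
    · intro h1
      refine hasLog_move h1 fun z hz => ?_
      have h2 : ‖z - x‖ ≤ ‖z - y‖ + ‖y - x‖ := by
        have : z - x = (z - y) + (y - x) := by ring
        rw [this]
        exact norm_add_le _ _
      rw [norm_sub_rev x y]
      linarith [hxz z hz]
  obtain ⟨G, hG⟩ : ∃ G : Set ℂ, G = {x | x ∈ Xᶜ ∧ HasLog X (fun z => z - x)} := ⟨_, rfl⟩
  obtain ⟨H, hH⟩ : ∃ H : Set ℂ, H = {x | x ∈ Xᶜ ∧ ¬ HasLog X (fun z => z - x)} := ⟨_, rfl⟩
  have hGo : IsOpen G := by
    rw [Metric.isOpen_iff]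
    intro x hx
    rw [hG] at hx ⊢
    obtain ⟨ε, hε, h1, h2⟩ := key x hx.1
    exact ⟨ε, hε, fun y hy => ⟨h1 hy, (h2 y hy).1 hx.2⟩⟩
  have hHo : IsOpen H := by
    rw [Metric.isOpen_iff]
    intro x hx
    rw [hH] at hx ⊢
    obtain ⟨ε, hε, h1, h2⟩ := key x hx.1
    exact ⟨ε, hε, fun y hy => ⟨h1 hy, fun h3 => hx.2 ((h2 y hy).2 h3)⟩⟩
  -- a far point
  obtain ⟨R, hR⟩ := hX.isBounded.exists_pos_norm_lt
  obtain ⟨hR0, hR⟩ := hR
  have hRlog : HasLog X (fun z => z - (R : ℂ)) := by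
    have h1 : HasLog X (fun z => 1 - z / (R : ℂ)) := by
      apply hasLog_near_one
      · exact continuousOn_id.div_const _
      · intro z hz
        rw [norm_div, norm_real, Real.norm_eq_abs, abs_of_pos hR0, div_lt_one hR0]
        exact hR z hz
    have hRne : (R : ℂ) ≠ 0 := by exact_mod_cast hR0.ne'
    refine ((hasLog_const (X := X) (neg_ne_zero.2 hRne)).mul h1).congr fun z _ => ?_
    field_simp
    ring
  have hRX : (R : ℂ) ∈ Xᶜ := by
    intro h1
    have := hR _ h1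
    rw [norm_real, Real.norm_eq_abs, abs_of_pos hR0] at this
    exact absurd this (lt_irrefl _)
  obtain ⟨x, -, hx1, hx2⟩ := hXc G H hGo hHo (by
    intro x hx
    rw [hG, hH]
    by_cases h1 : HasLog X (fun z => z - x)
    · exact Or.inl ⟨hx, h1⟩
    · exact Or.inr ⟨hx, h1⟩) ⟨_, hRX, by rw [hG]; exact ⟨hRX, hRlog⟩⟩
    ⟨a, ha, by rw [hH]; exact ⟨ha, hcon⟩⟩
  rw [hG] at hx1
  rw [hH] at hx2
  exact hx2.2 hx1.2

/-- polynomials without zeros on `X` -/
theorem hasLog_poly {X : Set ℂ} (hX : IsCompact X) (hXc : IsPreconnected Xᶜ) {p : Polynomial ℂ}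
    (hp : p ≠ 0) (h : ∀ z ∈ X, p.eval z ≠ 0) : HasLog X (fun z => p.eval z) := by
  have h1 : ∀ s : Multiset ℂ, (∀ a ∈ s, a ∉ X) → HasLog X (fun z => (s.map fun a => z - a).prod) := by
    intro s
    induction s using Multiset.induction with
    | empty =>
      intro _
      simpa using hasLog_const (X := X) one_ne_zero
    | cons a s ih =>
      intro hs
      simp only [Multiset.map_cons, Multiset.prod_cons]
      exact (hasLog_sub hX hXc (hs a (Multiset.mem_cons_self _ _))).mul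
        (ih fun b hb => hs b (Multiset.mem_cons_of_mem hb))
  have h2 := h1 p.roots (by
    intro a ha haX
    exact h a haX ((Polynomial.mem_roots hp).1 ha))
  refine ((hasLog_const (X := X) (Polynomial.leadingCoeff_ne_zero.2 hp)).mul h2).congr fun z _ => ?_
  have h3 := (IsAlgClosed.splits p).eval_eq_prod_roots z
  rw [h3]

/-- **Continuous functions without zeros have logarithms.** -/
theorem hasLog_of_ne {X : Set ℂ} (hX : IsCompact X) (hXc : IsConnected Xᶜ) (hint : interior X = ∅)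
    {φ : ℂ → ℂ} (hφ : ContinuousOn φ X) (h0 : ∀ z ∈ X, φ z ≠ 0) : HasLog X φ := by
  rcases X.eq_empty_or_nonempty with rfl | hne
  · exact ⟨fun _ => 0, continuousOn_empty _, fun z hz => absurd hz (notMem_empty z)⟩
  obtain ⟨z₀, hz₀, hmin⟩ := hX.exists_isMinOn hne hφ.norm
  have hδ : 0 < ‖φ z₀‖ := norm_pos_iff.2 (h0 z₀ hz₀)
  obtain ⟨p, hp⟩ := ZFM.mergelyan hX hXc φ hφ (by rw [hint]; exact differentiableOn_empty) ‖φ z₀‖ hδ
  have hp' : ∀ z ∈ X, ‖p.eval z - φ z‖ < ‖φ z‖ := fun z hz => (hp z hz).trans_le (hmin hz)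
  have hpne : ∀ z ∈ X, p.eval z ≠ 0 := by
    intro z hz h1
    have := hp' z hz
    rw [h1, zero_sub, norm_neg] at this
    exact absurd this (lt_irrefl _)
  have hp0 : p ≠ 0 := by
    rintro rfl
    exact hpne z₀ hz₀ (by simp)
  obtain ⟨g, hg, hg'⟩ := hasLog_poly hX hXc.isPreconnected hp0 hpne
  -- `p / φ = 1 - (φ - p) / φ`
  obtain ⟨k, hk, hk'⟩ : HasLog X (fun z => 1 - (φ z - p.eval z) / φ z) := by
    apply hasLog_near_one
    · exact (hφ.sub p.continuous.continuousOn).div hφ h0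
    · intro z hz
      rw [norm_div, norm_sub_rev, div_lt_one (norm_pos_iff.2 (h0 z hz))]
      exact hp' z hz
  refine ⟨fun z => g z - k z, hg.sub hk, fun z hz => ?_⟩
  rw [exp_sub, hg' z hz, hk' z hz]
  have h1 := h0 z hz
  have h2 := hpne z hz
  have h3 : 1 - (φ z - p.eval z) / φ z = p.eval z / φ z := by
    field_simp
    ring
  show p.eval z / (1 - (φ z - p.eval z) / φ z) = φ z
  rw [h3]
  field_simp

/-- **Hereditary unicoherence.** -/
theorem unicoherent {X C D : Set ℂ} (hX : IsCompact X) (hXc : IsConnected Xᶜ)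
    (hint : interior X = ∅) (hC : IsClosed C) (hD : IsClosed D) (hCX : C ⊆ X) (hDX : D ⊆ X)
    (hCc : IsPreconnected C) (hDc : IsPreconnected D) : IsPreconnected (C ∩ D) := by
  classical
  have hY : IsCompact (C ∪ D) := (hX.of_isClosed_subset hC hCX).union (hX.of_isClosed_subset hD hDX)
  have hYX : C ∪ D ⊆ X := union_subset hCX hDX
  have hYi : interior (C ∪ D) = ∅ := by
    rw [eq_empty_iff_forall_notMem]
    intro z hz
    have := interior_mono hYX hz
    rw [hint] at this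
    exact this
  have hYc : IsConnected (C ∪ D)ᶜ := by
    refine hXc.subset_closure (compl_subset_compl.2 hYX) ?_
    rw [closure_compl, hint, compl_empty]
    exact subset_univ _
  rw [isPreconnected_closed_iff]
  rintro P Q hP hQ hsub ⟨a, ha, haP⟩ ⟨b, hb, hbQ⟩
  by_contra hcon
  have hdis : Disjoint (C ∩ D ∩ P) (C ∩ D ∩ Q) := by
    rw [Set.disjoint_left]
    rintro x ⟨hx, hxP⟩ ⟨-, hxQ⟩
    exact hcon ⟨x, hx, hxP, hxQ⟩
  obtain ⟨u, hu0, hu1, -⟩ := exists_continuous_zero_one_of_isClosed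
    ((hC.inter hD).inter hP) ((hC.inter hD).inter hQ) hdis
  have u0 : ∀ x ∈ C ∩ D ∩ P, u x = 0 := fun x hx => hu0 hx
  have u1 : ∀ x ∈ C ∩ D ∩ Q, u x = 1 := fun x hx => hu1 hx
  obtain ⟨e, he⟩ : ∃ e : ℂ → ℂ, e = fun z => exp (((Real.pi * u z : ℝ) : ℂ) * I) := ⟨_, rfl⟩
  obtain ⟨e', he'⟩ : ∃ e' : ℂ → ℂ, e' = fun z => exp (-(((Real.pi * u z : ℝ) : ℂ) * I)) := ⟨_, rfl⟩
  have hcu : Continuous fun z : ℂ => ((Real.pi * u z : ℝ) : ℂ) * I :=
    (continuous_ofReal.comp (continuous_const.mul u.continuous)).mul continuous_const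
  have hec : Continuous e := by rw [he]; exact continuous_exp.comp hcu
  have hec' : Continuous e' := by rw [he']; exact continuous_exp.comp hcu.neg
  have hagree : ∀ z, z ∈ C → z ∈ D → e z = e' z := by
    intro z hzC hzD
    rw [he, he']
    rcases hsub ⟨hzC, hzD⟩ with h1 | h1
    · simp only [u0 z ⟨⟨hzC, hzD⟩, h1⟩]
      simp
    · simp only [u1 z ⟨⟨hzC, hzD⟩, h1⟩, mul_one]
      rw [exp_neg, exp_pi_mul_I]
      norm_num
  obtain ⟨φ, hφ⟩ : ∃ φ : ℂ → ℂ, φ = fun z => if z ∈ C then e z else e' z := ⟨_, rfl⟩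
  have hφC : ∀ z ∈ C, φ z = e z := fun z hz => by rw [hφ]; simp only [if_pos hz]
  have hφD : ∀ z ∈ D, φ z = e' z := by
    intro z hz
    rw [hφ]
    by_cases h1 : z ∈ C
    · simp only [if_pos h1]
      exact hagree z h1 hz
    · simp only [if_neg h1]
  have hφcont : ContinuousOn φ (C ∪ D) :=
    (hec.continuousOn.congr hφC).union_of_isClosed (hec'.continuousOn.congr hφD) hC hD
  have hφ0 : ∀ z ∈ C ∪ D, φ z ≠ 0 := by
    rintro z (hz | hz)
    · rw [hφC z hz, he]
      exact exp_ne_zero _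
    · rw [hφD z hz, he']
      exact exp_ne_zero _
  obtain ⟨g, hg, hg'⟩ := hasLog_of_ne hY hYc hYi hφcont hφ0
  have c1 := Pool.Agent.H777R2.exp_const_on hCc
    (k := fun z => g z - ((Real.pi * u z : ℝ) : ℂ) * I) (c := 1)
    ((hg.mono subset_union_left).sub hcu.continuousOn) (by
      intro z hz
      rw [exp_sub, hg' z (Or.inl hz), hφC z hz, he]
      exact div_self (exp_ne_zero _)) ha.1 hb.1
  have c2 := Pool.Agent.H777R2.exp_const_on hDc
    (k := fun z => g z + ((Real.pi * u z : ℝ) : ℂ) * I) (c := 1)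
    ((hg.mono subset_union_right).add hcu.continuousOn) (by
      intro z hz
      rw [exp_add, hg' z (Or.inr hz), hφD z hz, he', ← exp_add]
      simp) ha.2 hb.2
  simp only [u0 a ⟨ha, haP⟩, u1 b ⟨hb, hbQ⟩] at c1 c2
  have h1 : (Real.pi : ℂ) * I = 0 := by
    push_cast at c1 c2
    linear_combination (c1 - c2) / 2
  rcases mul_eq_zero.1 h1 with h2 | h2
  · exact Real.pi_ne_zero (by exact_mod_cast h2)
  · exact I_ne_zero h2

end Pool.Agent.H47.LC
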